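import Mathlib
import Pool.Agent.H.MP_156542_lc.B

namespace Pool.Agent.Results.MP_156542_lc.No

open FirstOrder Filter Pool.Agent.H.MP_156542_lc

def rr {I : Type} (i : I) {n : ℕ} (a b : Fin n) : (Lang I).BoundedFormula Empty n :=
  Language.Relations.boundedFormula₂ (L := Lang I) (Rel2.r i)
    (Language.Term.var (Sum.inr a)) (Language.Term.var (Sum.inr b))

theorem rr_real {I W : Type} [(Lang I).Structure W] (i : I) {n : ℕ} (a b : Fin n)
    (v : Empty → W) (xs : Fin n → W) : (rr i a b).Realize v xs ↔ rel W i (xs a) (xs b) := by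
  exact Language.BoundedFormula.realize_rel₂ (L := Lang I) (R := Rel2.r i)

def alpha {I : Type} (i : I) : (Lang I).Sentence :=
  Language.BoundedFormula.all (Language.BoundedFormula.all
    ((rr i (n := 2) 0 1).imp
      ((Language.BoundedFormula.all (Language.BoundedFormula.all
        ((rr i (n := 4) 0 2).imp ((rr i (n := 4) 2 3).imp
          (Language.BoundedFormula.ex (rr i (n := 5) 3 4)))))).imp
        (Language.BoundedFormula.all (rr i (n := 3) 1 2).not))))

theorem result (I : Type) [Nonempty I] : ∃ φ : Fm I,
    (∃ α : (Lang I).Sentence, ∀ (W : Type) [(Lang I).Structure W] [Nonempty W],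
      KValid (rel (J := I) W) φ ↔ W ⊨ α) ∧
    ¬ ∃ α : (Lang (Option I)).Sentence,
      ∀ (S : Type) [(Lang (Option I)).Structure S] [Nonempty S],
        Full (rel (J := Option I) S none) (fun i : I => rel (J := Option I) S (some i)) →
        (Valid (rel (J := Option I) S none) (fun i : I => rel (J := Option I) S (some i)) φ ↔
          S ⊨ α) := by
  obtain ⟨i⟩ := ‹Nonempty I›
  refine ⟨phi i, ⟨alpha i, fun W _ _ => ?_⟩, ?_⟩
  · rw [kripke]
    simp only [alpha, Language.Sentence.Realize, Language.Formula.Realize,
      Language.BoundedFormula.realize_all, Language.BoundedFormula.realize_imp,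
      Language.BoundedFormula.realize_ex, Language.BoundedFormula.realize_not, rr_real]
    rfl
  · rintro ⟨α, hα⟩
    have hfull : Full (rel (J := Option I) Pt none)
        (fun i : I => rel (J := Option I) Pt (some i)) :=
      full_of leS (fun _ : I => RS)
        { refl := leS_refl, trans := leS_trans, antisymm := leS_antisymm }
        (fun _ => condB) (fun _ => condC) (fun _ => condD)
    have h1 : Pt ⊨ α := (hα Pt hfull).1 (valid_base i)
    let u : Ultrafilter ℕ := Ultrafilter.of atTop
    have hu : (u : Filter ℕ) ≤ atTop := Ultrafilter.of_le _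
    let Q := (u : Filter ℕ).Product (fun _ => Pt)
    have h2 : Q ⊨ α :=
      (Language.Ultraproduct.sentence_realize (M := fun _ => Pt) α).2
        (Eventually.of_forall fun _ => h1)
    let π : (ℕ → Pt) → Q := fun f => (f : (u : Filter ℕ).Product (fun _ => Pt))
    have hs : Function.Surjective π := Quotient.mk_surjective
    have heq : ∀ f g, (∀ᶠ n in u, f n = g n) → π f = π g := fun f g h => Quotient.sound h
    have hle : ∀ f g, rel (J := Option I) Q none (π f) (π g) ↔ ∀ᶠ n in u, leS (f n) (g n) :=
      fun f g => rel_prod u Pt none f g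
    have hR : ∀ j : I, ∀ f g, rel (J := Option I) Q (some j) (π f) (π g) ↔
        ∀ᶠ n in u, RS (f n) (g n) := fun j f g => rel_prod u Pt (some j) f g
    have hRR : (fun j : I => rel (J := Option I) Q (some j)) =
        fun _ : I => rel (J := Option I) Q (some i) := by
      funext j a b
      obtain ⟨f, rfl⟩ := hs a
      obtain ⟨g, rfl⟩ := hs b
      rw [hR, hR]
    have h3 := hα Q
    rw [hRR] at h3
    exact q_invalid u π _ _ hs hle (hR i) hu i
      ((h3 (q_full u π _ _ hs heq hle (hR i))).2 h2)

end Pool.Agent.Results.MP_156542_lc.No
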